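import Mathlib

namespace Pool.Agent.MP_56d70a_co

/-- `D` is a dominating set of `G`: every vertex lies in `D` or has a neighbour in `D`. -/
def Dom {V : Type} (G : SimpleGraph V) (D : Finset V) : Prop :=
  ∀ w : V, w ∈ D ∨ ∃ x ∈ D, G.Adj w x

/-- `G` is `k`-edge-critical: its domination number is exactly `k`, and adding any missing edge
makes the domination number smaller than `k`. -/
def Crit {V : Type} (k : ℕ) (G : SimpleGraph V) : Prop :=
  (∃ D : Finset V, D.card = k ∧ Dom G D) ∧ (∀ D : Finset V, D.card < k → ¬ Dom G D) ∧
    ∀ u v : V, u ≠ v → ¬ G.Adj u v →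
      ∃ D : Finset V, D.card < k ∧ Dom (G ⊔ SimpleGraph.edge u v) D

/-- The number of connected components of `G - S`. -/
noncomputable def comps {V : Type} (G : SimpleGraph V) (S : Finset V) : ℕ :=
  Nat.card (G.induce ((↑S : Set V)ᶜ)).ConnectedComponent

/-- `G` is `l`-connected: it has more than `l` vertices and stays connected after deleting any
set of fewer than `l` vertices (for `l = 0` this only says that `G` has a vertex). -/
def Conn {V : Type} [Fintype V] (l : ℕ) (G : SimpleGraph V) : Prop :=
  l < Fintype.card V ∧ ∀ X : Finset V, X.card < l → (G.induce ((↑X : Set V)ᶜ)).Connected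

/-- The orders of the `l`-connected `k`-edge-critical graphs with no cycle longer than `m`. -/
def orders (k l m : ℕ) : Set ℕ :=
  {n | ∃ (V : Type) (_ : Fintype V) (G : SimpleGraph V), Fintype.card V = n ∧ Crit k G ∧
    Conn l G ∧ ∀ (v : V) (c : G.Walk v v), c.IsCycle → c.length ≤ m}

/-- The numbers of components of `G - S`, over all `l`-connected `k`-edge-critical graphs `G` and
all vertex sets `S` with at most `s` elements. -/
def compVals (k l s : ℕ) : Set ℕ :=
  {w | ∃ (V : Type) (_ : Fintype V) (G : SimpleGraph V) (S : Finset V), Crit k G ∧ Conn l G ∧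
    S.card ≤ s ∧ comps G S = w}

end Pool.Agent.MP_56d70a_co
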