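import Mathlib

set_option autoImplicit false

section

/-! Hamiltonian 3-edge-critical graphs of large order are pancyclic: definitions and steps.
`N v` is the neighbourhood of `v` in the complement, `A` the adjacency of the graph. -/

namespace Pool.Agent.MP_56d70a_co.Pan

open Finset

section
variable {V : Type}

/-- `w 0, …, w (m - 1)` is a cycle -/
def Cy (A : V → V → Prop) (m : ℕ) (w : ℕ → V) : Prop :=
  (∀ i < m, ∀ j < m, w i = w j → i = j) ∧ (∀ i, i + 1 < m → A (w i) (w (i + 1))) ∧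
    A (w (m - 1)) (w 0)

/-- there is a cycle of length `m` -/
def Has (A : V → V → Prop) (m : ℕ) : Prop := ∃ w, Cy A m w

/-- a cycle of length `m` as a periodic sequence -/
def Pe (A : V → V → Prop) (m : ℕ) (w : ℕ → V) : Prop :=
  (∀ i, A (w i) (w (i + 1))) ∧ (∀ i, w (i + m) = w i) ∧ ∀ i j, i < j → j < i + m → w i ≠ w j

theorem Pe.shift {A : V → V → Prop} {m : ℕ} {w : ℕ → V} (h : Pe A m w) (t : ℕ) :
    Pe A m fun i => w (t + i) :=
  ⟨fun i => h.1 (t + i), fun i => (congrArg w (Nat.add_assoc t i m).symm).trans (h.2.1 (t + i)),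
    fun i j a b => h.2.2 _ _ (by omega) (by omega)⟩

theorem Pe.inj {A : V → V → Prop} {m : ℕ} {w : ℕ → V} (h : Pe A m w) {i j : ℕ} (hi : i < m)
    (hj : j < m) (e : w i = w j) : i = j := by
  rcases lt_trichotomy i j with c | c | c
  · exact absurd e (h.2.2 i j c (by omega))
  · exact c
  · exact absurd e.symm (h.2.2 j i c (by omega))

theorem Has.pe {A : V → V → Prop} {m : ℕ} (h : Has A m) (hm : 1 ≤ m) : ∃ w, Pe A m w := by
  obtain ⟨w, h1, h2, h3⟩ := h
  refine ⟨fun i => w (i % m), fun i => ?_, fun i => by simp, fun i j a b e => ?_⟩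
  · have := Nat.mod_lt i (show m > 0 by omega)
    show A (w (i % m)) (w ((i + 1) % m))
    rw [← Nat.mod_add_mod]
    by_cases c : i % m + 1 < m
    · rw [Nat.mod_eq_of_lt c]
      exact h2 _ c
    · rw [show i % m + 1 = m by omega, Nat.mod_self, show i % m = m - 1 by omega]
      exact h3
  · have e' := h1 _ (Nat.mod_lt i (by omega)) _ (Nat.mod_lt j (by omega)) e
    have := Nat.le_of_dvd (show 0 < j - i by omega) ((Nat.modEq_iff_dvd' a.le).1 e')
    omega

/-- a new cycle along an injective list of positions -/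
theorem Pe.sub {A : V → V → Prop} {m k : ℕ} {w : ℕ → V} (h : Pe A m w) (σ : ℕ → ℕ)
    (h0 : ∀ i < k, σ i < m) (h1 : ∀ i < k, ∀ j < k, σ i = σ j → i = j)
    (h2 : ∀ i, i + 1 < k → A (w (σ i)) (w (σ (i + 1)))) (h3 : A (w (σ (k - 1))) (w (σ 0))) :
    Has A k :=
  ⟨fun i => w (σ i), fun i hi j hj e => h1 i hi j hj (h.inj (h0 i hi) (h0 j hj) e), h2, h3⟩

variable [DecidableEq V]

/-- `N` is the neighbourhood map of a graph -/
def Gr (N : V → Finset V) : Prop := (∀ x y, x ∈ N y → y ∈ N x) ∧ ∀ x, x ∉ N x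

/-- `v` is the only common neighbour of `u` and `z` -/
def Tr (N : V → Finset V) (u v z : V) : Prop := u ≠ z ∧ N u ∩ N z = {v}

/-- every edge lies in a triple -/
def Crt (N : V → Finset V) : Prop := ∀ u v, v ∈ N u → (∃ z, Tr N u v z) ∨ ∃ z, Tr N v u z

/-- the vertices with exactly one common neighbour with `y` -/
def Qs [Fintype V] (N : V → Finset V) (y : V) : Finset V :=
  univ.filter fun z => z ≠ y ∧ #(N y ∩ N z) = 1

/-- every vertex of `P` misses at most `θ` vertices of `P` in the complement of `N` -/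
def Cl (N : V → Finset V) (θ : ℕ) (P : Finset V) : Prop := ∀ v ∈ P, #(N v ∩ P) + 1 ≤ θ

/-- adjacency in the complement of `N` -/
def Ad (N : V → Finset V) (v w : V) : Prop := v ≠ w ∧ w ∉ N v

end

/-- translation to and from walks -/
def STrans : Prop :=
  ∀ (V : Type) [Fintype V] [DecidableEq V] (G : SimpleGraph V),
    (3 ≤ Fintype.card V → G.IsHamiltonian → Has G.Adj (Fintype.card V)) ∧
    ∀ m, 3 ≤ m → Has G.Adj m → ∃ (a : V) (p : G.Walk a a), p.IsCycle ∧ p.length = m

/-- a missing length bounds the degrees along a Hamiltonian cycle -/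
def SBondy : Prop :=
  ∀ (V : Type) [Fintype V] [DecidableEq V] (N : V → Finset V) (l : ℕ), Gr N →
    Has (Ad N) (Fintype.card V) → 3 ≤ l → l < Fintype.card V → ¬ Has (Ad N) l →
    ∃ π : V → V, Function.Injective π ∧ ∀ v, Fintype.card V ≤ #(N v) + #(N (π v)) + 3

/-- almost as many pairs with one common neighbour as edges -/
def SRemove : Prop :=
  ∀ ε : ℝ, 0 < ε → ∃ n₀ : ℕ, ∀ (V : Type) [Fintype V] [DecidableEq V] (N : V → Finset V),
    n₀ ≤ Fintype.card V → Gr N → Crt N →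
    ((∑ v, #(N v) : ℕ) : ℝ) ≤ ε * (Fintype.card V : ℝ) ^ 2 + (∑ v, #(Qs N v) : ℕ)

/-- short cycles in an almost complete set -/
def SSmall : Prop :=
  ∀ (V : Type) [DecidableEq V] (N : V → Finset V) (θ l : ℕ) (P : Finset V), Gr N → Cl N θ P →
    3 ≤ l → l + 2 * θ ≤ #P → Has (Ad N) l

/-- a long cycle can be shortened by one -/
def SShort : Prop :=
  ∀ (V : Type) [Fintype V] [DecidableEq V] (N : V → Finset V) (θ m : ℕ) (P R : Finset V), Gr N →
    Cl N θ P → Cl N θ R → #(univ \ (P ∪ R)) ≤ θ → 20 * θ + 40 ≤ m → Has (Ad N) (m + 1) →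
    Has (Ad N) m

end Pool.Agent.MP_56d70a_co.Pan

end

section

namespace Pool.Agent.MP_56d70a_co.Pan

open Finset

open scoped Classical

/-- number of positions in a period with the property `p` -/
noncomputable def cnt_Short (M : ℕ) (p : ℕ → Prop) : ℕ := #((range M).filter p)

theorem shift_Short {M : ℕ} {p : ℕ → Prop} (hp : ∀ j, p (j + M) ↔ p j) (t : ℕ) :
    cnt_Short M (fun j => p (t + j)) = cnt_Short M p := by
  induction t with
  | zero => simp
  | succ t ih =>
    rw [← ih]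
    unfold cnt_Short
    rw [card_filter, card_filter]
    have h1 := sum_range_succ (fun j => if p (t + j) then 1 else 0) M
    have h2 := sum_range_succ' (fun j => if p (t + j) then 1 else 0) M
    have h3 : (if p (t + M) then 1 else 0) = (if p (t + 0) then 1 else 0) := by
      simp only [hp t, add_zero]
    have h4 : ∀ j, t + 1 + j = t + (j + 1) := fun j => by omega
    simp only [h4]
    omega

theorem le_Short {M : ℕ} {p q r : ℕ → Prop} (h : ∀ j, p j → q j ∨ r j) :
    cnt_Short M p ≤ cnt_Short M q + cnt_Short M r := by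
  unfold cnt_Short
  refine le_trans (card_le_card fun j hj => ?_) (card_union_le _ _)
  simp only [mem_union, mem_filter] at hj ⊢
  exact (h j hj.2).imp (fun h => ⟨hj.1, h⟩) fun h => ⟨hj.1, h⟩

theorem icc_Short (M : ℕ) (p : ℕ → Prop) :
    ∃ J : Finset ℕ, cnt_Short M p ≤ #J + 2 ∧ ∀ j ∈ J, 1 ≤ j ∧ j ≤ M - 2 ∧ p j := by
  refine ⟨(Icc 1 (M - 2)).filter p, ?_, fun j hj => ⟨(mem_Icc.1 (mem_filter.1 hj).1).1,
    (mem_Icc.1 (mem_filter.1 hj).1).2, (mem_filter.1 hj).2⟩⟩
  unfold cnt_Short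
  have h : (range M).filter p ⊆ (Icc 1 (M - 2)).filter p ∪ {0, M - 1} := fun j hj => by
    simp only [mem_union, mem_filter, mem_range, mem_Icc, mem_insert, mem_singleton] at hj ⊢
    by_cases h : 1 ≤ j ∧ j ≤ M - 2
    · exact Or.inl ⟨h, hj.2⟩
    · exact Or.inr (by omega)
  exact (card_le_card h).trans ((card_union_le _ _).trans (Nat.add_le_add_left card_le_two _))

theorem pos_Short {M : ℕ} {p : ℕ → Prop} (h : 0 < cnt_Short M p) : ∃ j, p j := by
  obtain ⟨j, hj⟩ := card_pos.1 h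
  exact ⟨j, (mem_filter.1 hj).2⟩

theorem inj_Short {V : Type} {M : ℕ} {p : ℕ → Prop} {w : ℕ → V} {S : Finset V}
    (h1 : ∀ j, p j → w j ∈ S) (h2 : ∀ j < M, ∀ k < M, w j = w k → j = k) :
    cnt_Short M p ≤ #S :=
  card_le_card_of_injOn w (fun j hj => h1 j (mem_filter.1 hj).2) fun j hj k hk e =>
    h2 j (mem_range.1 (mem_filter.1 hj).1) k (mem_range.1 (mem_filter.1 hk).1) e

section
variable {V : Type} [DecidableEq V] {N : V → Finset V} {θ M : ℕ} {w : ℕ → V} {X Y : Finset V}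

omit [DecidableEq V] in
theorem symm_Short (hN : Gr N) {x y : V} (h : Ad N x y) : Ad N y x :=
  ⟨h.1.symm, fun h' => h.2 (hN.1 _ _ h')⟩

theorem good_Short (h : Pe (Ad N) M w) (hX : Cl N θ X) {v : V} (hv : v ∈ X) (c : ℕ)
    (J : Finset ℕ) (hJ : ∀ j ∈ J, j + c < M ∧ w (j + c) ∈ X) :
    #J ≤ #(J.filter fun j => Ad N v (w (j + c))) + θ := by
  have h1 := card_filter_add_card_filter_not (s := J) (fun j => Ad N v (w (j + c)))
  have h2 : #(J.filter fun j => ¬ Ad N v (w (j + c))) ≤ #(insert v (N v ∩ X)) := by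
    refine card_le_card_of_injOn (fun j => w (j + c)) (fun j hj => ?_) (fun j hj k hk e => ?_)
    · have hj' := mem_filter.1 hj
      simp only [coe_insert, coe_inter, Set.mem_insert_iff, Set.mem_inter_iff, mem_coe]
      by_cases e : w (j + c) = v
      · exact Or.inl e
      · refine Or.inr ⟨?_, (hJ j hj'.1).2⟩
        by_contra h3
        exact hj'.2 ⟨Ne.symm e, h3⟩
    · have := h.inj (hJ j (mem_filter.1 hj).1).1 (hJ k (mem_filter.1 hk).1).1 e
      omega
  have h3 := card_insert_le v (N v ∩ X)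
  have h4 := hX v hv
  omega

omit [DecidableEq V] in
theorem back_Short (hN : Gr N) (h : Pe (Ad N) M w) {a b : ℕ} (e : a = b + 1) :
    Ad N (w a) (w b) := e ▸ symm_Short hN (h.1 b)

theorem two0_Short {m : ℕ} (hN : Gr N) (h : Pe (Ad N) (m + 1) w) (hX : Cl N θ X) (hY : Cl N θ Y)
    (h1 : w m ∈ X) (h2 : w 1 ∈ Y)
    (hc : 2 * θ + 2 < cnt_Short (m + 1) fun j => w j ∈ X ∧ w (j + 1) ∈ Y) : Has (Ad N) m := by
  obtain ⟨J, i0, hJ⟩ := icc_Short (m + 1) fun j => w j ∈ X ∧ w (j + 1) ∈ Y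
  have mJ : ∀ j ∈ J, 1 ≤ j ∧ j + 1 ≤ m ∧ w j ∈ X ∧ w (j + 1) ∈ Y := fun j hj => by
    obtain ⟨h3, h4, h5⟩ := hJ j hj
    exact ⟨h3, by omega, h5⟩
  have i1 := good_Short h hX h1 0 J fun j hj => ⟨by have := mJ j hj; omega, (mJ j hj).2.2.1⟩
  have i2 := good_Short h hY h2 1 (J.filter fun j => Ad N (w m) (w (j + 0))) fun j hj =>
    ⟨by have := mJ j (mem_filter.1 hj).1; omega, (mJ j (mem_filter.1 hj).1).2.2.2⟩
  obtain ⟨j, hj⟩ : ((J.filter fun j => Ad N (w m) (w (j + 0))).filter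
      fun j => Ad N (w 1) (w (j + 1))).Nonempty := card_pos.1 (by omega)
  obtain ⟨hj1, a2⟩ := mem_filter.1 hj
  obtain ⟨hj2, a1⟩ := mem_filter.1 hj1
  obtain ⟨b1, b2, -⟩ := mJ j hj2
  refine h.sub (fun i => if i < j then i + 1 else m + j - i) (fun i hi => ?_)
    (fun i hi k hk e => ?_) (fun i hi => ?_) ?_
  · split_ifs <;> omega
  · split_ifs at e <;> omega
  · split_ifs with c1 c2 c2
    · exact h.1 _
    · rw [show i + 1 = j by omega, show m + j - j = m by omega]
      exact symm_Short hN a1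
    · omega
    · exact back_Short hN h (by omega)
  · rw [if_neg (by omega), if_pos (by omega), show m + j - (m - 1) = j + 1 by omega]
    exact symm_Short hN a2

theorem three0_Short {m : ℕ} (hN : Gr N) (h : Pe (Ad N) (m + 1) w) (hX : Cl N θ X)
    (hY : Cl N θ Y) (h1 : w m ∈ X) (h2 : w 1 ∈ X)
    (hc : 3 * θ + 2 < cnt_Short (m + 1) fun j => w j ∈ Y ∧ w (j + 1) ∈ X) : Has (Ad N) m := by
  obtain ⟨J, i0, hJ⟩ := icc_Short (m + 1) fun j => w j ∈ Y ∧ w (j + 1) ∈ X
  have mJ : ∀ j ∈ J, 1 ≤ j ∧ j + 1 ≤ m ∧ w j ∈ Y ∧ w (j + 1) ∈ X := fun j hj => by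
    obtain ⟨h3, h4, h5⟩ := hJ j hj
    exact ⟨h3, by omega, h5⟩
  have i1 := good_Short h hX h1 1 J fun j hj => ⟨by have := mJ j hj; omega, (mJ j hj).2.2.2⟩
  set J1 := J.filter fun j => Ad N (w m) (w (j + 1)) with hJ1
  have m1 : ∀ j ∈ J1, j ∈ J := fun j hj => (mem_filter.1 hj).1
  have hne : J1.Nonempty := card_pos.1 (by omega)
  obtain ⟨j, hj, hmin⟩ := exists_min_image J1 id hne
  obtain ⟨b1, b2, b3, -⟩ := mJ j (m1 j hj)
  have a1 := (mem_filter.1 hj).2
  have i2 := good_Short h hY b3 0 J1 fun k hk =>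
    ⟨by have := mJ k (m1 k hk); omega, (mJ k (m1 k hk)).2.2.1⟩
  have i3 := good_Short h hX h2 1 (J1.filter fun k => Ad N (w j) (w (k + 0))) fun k hk =>
    ⟨by have := mJ k (m1 k (mem_filter.1 hk).1); omega, (mJ k (m1 k (mem_filter.1 hk).1)).2.2.2⟩
  obtain ⟨k, hk⟩ : ((J1.filter fun k => Ad N (w j) (w (k + 0))).filter
      fun k => Ad N (w 1) (w (k + 1))).Nonempty := card_pos.1 (by omega)
  obtain ⟨hk1, a3⟩ := mem_filter.1 hk
  obtain ⟨hk2, a2⟩ := mem_filter.1 hk1
  obtain ⟨-, b4, -⟩ := mJ k (m1 k hk2)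
  have hjk : j < k := lt_of_le_of_ne (hmin k hk2) fun e => a2.1 (by rw [e]; rfl)
  refine h.sub (fun i => if i < j then i + 1 else if i < k then k + j - i else m + k - i)
    (fun i hi => ?_) (fun i hi l hl e => ?_) (fun i hi => ?_) ?_
  · split_ifs <;> omega
  · split_ifs at e <;> omega
  · by_cases c1 : i + 1 < j
    · rw [if_pos (by omega), if_pos c1]
      exact h.1 _
    by_cases c2 : i + 1 = j
    · rw [if_pos (by omega), if_neg c1, if_pos (by omega), c2, show k + j - j = k by omega]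
      exact a2
    by_cases c3 : i + 1 < k
    · rw [if_neg (by omega), if_pos (by omega), if_neg c1, if_pos c3]
      exact back_Short hN h (by omega)
    by_cases c4 : i + 1 = k
    · rw [if_neg (by omega), if_pos (by omega), if_neg c1, if_neg c3,
        show k + j - i = j + 1 by omega, show m + k - (i + 1) = m by omega]
      exact symm_Short hN a1
    · rw [if_neg (by omega), if_neg (by omega), if_neg c1, if_neg c3]
      exact back_Short hN h (by omega)
  · rw [if_neg (by omega), if_neg (by omega), if_pos (by omega),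
      show m + k - (m - 1) = k + 1 by omega]
    exact symm_Short hN a3

omit [DecidableEq V] in
theorem pair_Short (h : Pe (Ad N) M w) (X Y : Finset V) (t : ℕ) :
    (cnt_Short M fun j => w (t + j) ∈ X ∧ w (t + (j + 1)) ∈ Y) =
      cnt_Short M fun j => w j ∈ X ∧ w (j + 1) ∈ Y :=
  shift_Short (p := fun j => w j ∈ X ∧ w (j + 1) ∈ Y) (fun j => by
    rw [h.2.1 j, show j + M + 1 = j + 1 + M by omega, h.2.1]) t

omit [DecidableEq V] in
theorem last_Short {m : ℕ} (h : Pe (Ad N) (m + 1) w) (i : ℕ) : w (i + 1 + m) = w i := by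
  rw [show i + 1 + m = i + (m + 1) by omega, h.2.1]

theorem main_Short [Fintype V] {m : ℕ} {P R : Finset V} (hN : Gr N) (h : Pe (Ad N) (m + 1) w)
    (hP : Cl N θ P) (hR : Cl N θ R) (ho : #(univ \ (P ∪ R)) ≤ θ) (hm : 20 * θ + 40 ≤ m)
    (hab : (cnt_Short (m + 1) fun j => w j ∈ R) ≤ cnt_Short (m + 1) fun j => w j ∈ P) :
    Has (Ad N) m := by
  have o0 : (cnt_Short (m + 1) fun j => ¬ (w j ∈ P ∨ w j ∈ R)) ≤ θ := by
    refine le_trans (inj_Short (w := w) (fun j hj => ?_) fun j hj k hk e => h.inj hj hk e) ho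
    simpa using hj
  have ot : ∀ t, (cnt_Short (m + 1) fun j => ¬ (w (t + j) ∈ P ∨ w (t + j) ∈ R)) ≤ θ := fun t =>
    (shift_Short (p := fun j => ¬ (w j ∈ P ∨ w j ∈ R)) (fun j => by rw [h.2.1 j]) t).trans_le o0
  have all : (cnt_Short (m + 1) fun _ => True) = m + 1 := by simp [cnt_Short]
  have a1 := le_Short (M := m + 1) (p := fun _ => True) (q := fun j => w j ∈ P ∨ w j ∈ R)
    (r := fun j => ¬ (w j ∈ P ∨ w j ∈ R)) fun j _ => em _
  have a2 := le_Short (M := m + 1) (p := fun j => w j ∈ P ∨ w j ∈ R) (q := fun j => w j ∈ P)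
    (r := fun j => w j ∈ R) fun j h => h
  by_cases hi : ∃ i, w i ∈ P ∧ w (i + 2) ∈ P
  · obtain ⟨i, h1, h2⟩ := hi
    have s1 := shift_Short (p := fun j => w j ∈ P) (fun j => by rw [h.2.1 j]) 1
    have b1 := le_Short (M := m + 1) (p := fun j => w (1 + j) ∈ P)
      (q := fun j => (w j ∈ P ∧ w (j + 1) ∈ P) ∨ (w j ∈ R ∧ w (j + 1) ∈ P))
      (r := fun j => ¬ (w j ∈ P ∨ w j ∈ R)) fun j hj => by
        rw [add_comm] at hj
        tauto
    have b2 := le_Short (M := m + 1)
      (p := fun j => (w j ∈ P ∧ w (j + 1) ∈ P) ∨ (w j ∈ R ∧ w (j + 1) ∈ P))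
      (q := fun j => w j ∈ P ∧ w (j + 1) ∈ P) (r := fun j => w j ∈ R ∧ w (j + 1) ∈ P) fun j h => h
    have h1' : w (i + 1 + m) ∈ P := by rwa [last_Short h]
    by_cases c : 3 * θ + 2 < cnt_Short (m + 1) fun j => w j ∈ P ∧ w (j + 1) ∈ P
    · exact three0_Short hN (h.shift (i + 1)) hP hP h1' h2 (c.trans_eq (pair_Short h P P _).symm)
    · refine three0_Short hN (h.shift (i + 1)) hP hR h1' h2
        (lt_of_lt_of_eq ?_ (pair_Short h R P _).symm)
      omega
  · have o1 := ot 1
    have o2 := ot 2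
    have s1 := pair_Short h P R 1
    have hi' : ∀ j, w j ∈ P → w (2 + j) ∉ P := fun j h1 h2 => hi ⟨j, h1, by rwa [add_comm]⟩
    have b1 := le_Short (M := m + 1) (p := fun j => w j ∈ P)
      (q := fun j => w j ∈ P ∧ w (2 + j) ∈ R)
      (r := fun j => ¬ (w (2 + j) ∈ P ∨ w (2 + j) ∈ R)) fun j hj => by
        have := hi' j hj
        tauto
    have b2 := le_Short (M := m + 1) (p := fun j => w j ∈ P ∧ w (2 + j) ∈ R)
      (q := fun j => (w j ∈ P ∧ w (j + 1) ∈ R) ∨ (w (1 + j) ∈ P ∧ w (1 + (j + 1)) ∈ R))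
      (r := fun j => ¬ (w (1 + j) ∈ P ∨ w (1 + j) ∈ R)) fun j hj => by
        rw [show 1 + (j + 1) = 2 + j by omega, add_comm j 1]
        tauto
    have b3 := le_Short (M := m + 1)
      (p := fun j => (w j ∈ P ∧ w (j + 1) ∈ R) ∨ (w (1 + j) ∈ P ∧ w (1 + (j + 1)) ∈ R))
      (q := fun j => w j ∈ P ∧ w (j + 1) ∈ R)
      (r := fun j => w (1 + j) ∈ P ∧ w (1 + (j + 1)) ∈ R) fun j h => h
    obtain ⟨i, h1, h2⟩ := pos_Short (M := m + 1) (p := fun j => w j ∈ P ∧ w (2 + j) ∈ R) (by omega)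
    have h1' : w (i + 1 + m) ∈ P := by rwa [last_Short h]
    refine two0_Short hN (h.shift (i + 1)) hP hR h1' (by rwa [add_comm] at h2)
      (lt_of_lt_of_eq ?_ (pair_Short h P R _).symm)
    omega

end

theorem sShort : SShort := by
  intro V _ _ N θ m P R hN hP hR ho hm h
  obtain ⟨w, hw⟩ := h.pe (by omega)
  rcases le_total (cnt_Short (m + 1) fun j => w j ∈ R) (cnt_Short (m + 1) fun j => w j ∈ P) with
    c | c
  · exact main_Short hN hw hP hR ho hm c
  · exact main_Short hN hw hR hP (by rwa [union_comm]) hm c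

end Pool.Agent.MP_56d70a_co.Pan

end

section

namespace Pool.Agent.MP_56d70a_co.Pan

open Finset

section
variable {V : Type} [DecidableEq V] {N : V → Finset V} {n l : ℕ} {u : ℕ → V}

omit [DecidableEq V] in
theorem symm_Bondy (hN : Gr N) {v w : V} (h : Ad N v w) : Ad N w v :=
  ⟨h.1.symm, fun c => h.2 (hN.1 _ _ c)⟩

omit [DecidableEq V] in
theorem one_Bondy (hN : Gr N) (hu : Pe (Ad N) n u) (hl : l < n) {j : ℕ} (hj : j + 2 ≤ l)
    (hb : Ad N (u (n - 1)) (u j)) (ha : Ad N (u 0) (u (j + (n - l) + 1))) : Has (Ad N) l := by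
  refine hu.sub (fun t => if t ≤ j then t else n + j - t) (fun i hi => ?_)
    (fun i hi i' hi' => ?_) (fun i hi => ?_) ?_
  · split_ifs <;> omega
  · split_ifs <;> omega
  · rcases lt_trichotomy i j with c | c | c
    · rw [if_pos c.le, if_pos (by omega)]
      exact hu.1 i
    · rw [if_pos c.le, if_neg (by omega), show n + j - (i + 1) = n - 1 by omega, c]
      exact symm_Bondy hN hb
    · rw [if_neg (by omega), if_neg (by omega), show n + j - i = n + j - (i + 1) + 1 by omega]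
      exact symm_Bondy hN (hu.1 _)
  · rw [if_neg (by omega), if_pos (Nat.zero_le j),
      show n + j - (l - 1) = j + (n - l) + 1 by omega]
    exact symm_Bondy hN ha

omit [DecidableEq V] in
theorem two_Bondy (hN : Gr N) (hu : Pe (Ad N) n u) (h3 : 3 ≤ l) {j : ℕ} (hj : l ≤ j + 1)
    (hj' : j + 2 ≤ n) (hb : Ad N (u (n - 1)) (u j)) (ha : Ad N (u 0) (u (j + 3 - l))) :
    Has (Ad N) l := by
  refine hu.sub (fun t => if t = 0 then 0 else if t = l - 1 then n - 1 else j + 3 - l + t - 1)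
    (fun i hi => ?_) (fun i hi i' hi' => ?_) (fun i hi => ?_) ?_
  · split_ifs <;> omega
  · split_ifs <;> omega
  · by_cases c : i = 0
    · rw [if_pos c, if_neg (by omega), if_neg (by omega),
        show j + 3 - l + (i + 1) - 1 = j + 3 - l by omega]
      exact ha
    by_cases c' : i + 1 = l - 1
    · rw [if_neg c, if_neg (by omega), if_neg (by omega), if_pos c',
        show j + 3 - l + i - 1 = j by omega]
      exact symm_Bondy hN hb
    · rw [if_neg c, if_neg (by omega), if_neg (by omega), if_neg c',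
        show j + 3 - l + (i + 1) - 1 = j + 3 - l + i - 1 + 1 by omega]
      exact hu.1 _
  · rw [if_neg (by omega), if_pos rfl, if_pos rfl]
    have h := hu.1 (n - 1)
    rwa [show n - 1 + 1 = 0 + n by omega, hu.2.1] at h

theorem key_Bondy (hN : Gr N) (hu : Pe (Ad N) n u) (h3 : 3 ≤ l) (hl : l < n)
    (hno : ¬ Has (Ad N) l) : n ≤ #(N (u (n - 1))) + #(N (u 0)) + 3 := by
  have h1 : #((Icc 1 (n - 2)).filter fun j => u j ∈ N (u (n - 1))) ≤ #(N (u (n - 1))) := by
    refine card_le_card_of_injOn u (fun j hj => (mem_filter.1 hj).2) fun i hi j hj e => ?_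
    have a := mem_Icc.1 (mem_filter.1 hi).1
    have b := mem_Icc.1 (mem_filter.1 hj).1
    exact hu.inj (by omega) (by omega) e
  have h2 : #((Icc 1 (n - 2)).filter fun j => ¬ u j ∈ N (u (n - 1))) ≤ #(N (u 0)) := by
    refine card_le_card_of_injOn
      (fun j => u (if j + 2 ≤ l then j + (n - l) + 1 else j + 3 - l)) (fun j hj => ?_)
      fun i hi j hj e => ?_
    · obtain ⟨a, b⟩ := mem_filter.1 hj
      have a := mem_Icc.1 a
      have hb : Ad N (u (n - 1)) (u j) := ⟨(hu.2.2 j (n - 1) (by omega) (by omega)).symm, b⟩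
      by_contra c
      refine hno ?_
      by_cases d : j + 2 ≤ l
      · simp only [if_pos d] at c
        exact one_Bondy hN hu hl d hb ⟨hu.2.2 _ _ (by omega) (by omega), c⟩
      · simp only [if_neg d] at c
        exact two_Bondy hN hu h3 (by omega) (by omega) hb ⟨hu.2.2 _ _ (by omega) (by omega), c⟩
    · have a := mem_Icc.1 (mem_filter.1 hi).1
      have b := mem_Icc.1 (mem_filter.1 hj).1
      have := hu.inj (by split_ifs <;> omega) (by split_ifs <;> omega) e
      split_ifs at this <;> omega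
  have h4 := card_filter_add_card_filter_not (s := Icc 1 (n - 2)) fun j => u j ∈ N (u (n - 1))
  rw [Nat.card_Icc] at h4
  omega

end

theorem sBondy : SBondy := by
  intro V _ _ N l hN hH h3 hl hno
  obtain ⟨w, hw⟩ := hH.pe (by omega)
  have hs : Function.Surjective fun i : Fin (Fintype.card V) => w i :=
    ((Fintype.bijective_iff_injective_and_card _).2
      ⟨fun i j e => Fin.ext (hw.inj i.2 j.2 e), Fintype.card_fin _⟩).2
  choose idx hidx using hs
  refine ⟨fun v => w (idx v + 1), fun v v' e => ?_, fun v => ?_⟩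
  · have e' : w (1 + idx v) = w (1 + idx v') := by rwa [add_comm 1, add_comm 1]
    have h := (hw.shift 1).inj (idx v).2 (idx v').2 e'
    exact (hidx v).symm.trans ((congrArg w h).trans (hidx v'))
  · have h := key_Bondy hN (hw.shift (idx v + 1)) h3 hl hno
    rw [show (idx v : ℕ) + 1 + (Fintype.card V - 1) = idx v + Fintype.card V by omega, hw.2.1,
      show w (idx v) = v from hidx v] at h
    exact h

end Pool.Agent.MP_56d70a_co.Pan

end

section

namespace Pool.Agent.MP_56d70a_co.Pan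

open Finset

/-- families of triples which form edge-disjoint triangles -/
def Good_Remove {V : Type} [DecidableEq V] (N : V → Finset V) (F : Finset (V × V × V)) : Prop :=
  (∀ u v z, (u, v, z) ∈ F → Tr N u v z) ∧
    (∀ u v z z', (u, v, z) ∈ F → (u, v, z') ∈ F → z = z') ∧
    ∀ u u' v z, (u, v, z) ∈ F → (u', v, z) ∈ F → u = u'

theorem uniq_Remove {V : Type} [DecidableEq V] {N : V → Finset V} {u v v' z : V}
    (h : Tr N u v z) (h1 : v' ∈ N u) (h2 : v' ∈ N z) : v' = v := by
  have : v' ∈ N u ∩ N z := mem_inter.2 ⟨h1, h2⟩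
  rw [h.2] at this
  exact mem_singleton.1 this

theorem mem_Remove {V : Type} [DecidableEq V] {N : V → Finset V} {u v z : V}
    (h : Tr N u v z) : v ∈ N u ∧ v ∈ N z := by
  have : v ∈ N u ∩ N z := by rw [h.2]; exact mem_singleton_self v
  exact mem_inter.1 this

open SimpleGraph TripartiteFromTriangles in
theorem small_Remove (ε : ℝ) (hε : 0 < ε) : ∃ n₀ : ℕ, ∀ (V : Type) [Fintype V] [DecidableEq V]
    (N : V → Finset V) (F : Finset (V × V × V)), n₀ ≤ Fintype.card V → Good_Remove N F →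
    (#F : ℝ) ≤ ε * (Fintype.card V : ℝ) ^ 2 := by
  refine ⟨⌊(triangleRemovalBound (ε / 9) * 27)⁻¹⌋₊ + 1, fun V _ _ N F hn hF => ?_⟩
  by_contra hc
  push Not at hc
  have i1 : ExplicitDisjoint F :=
    ⟨fun a b c a' h h' => hF.2.2 _ _ _ _ h h',
     fun a b c b' h h' => (uniq_Remove (hF.1 _ _ _ h) (mem_Remove (hF.1 _ _ _ h')).1
       (mem_Remove (hF.1 _ _ _ h')).2).symm,
     fun a b c c' h h' => hF.2.1 _ _ _ _ h h'⟩
  have i2 : NoAccidental F :=
    ⟨fun a a' b b' c c' h1 h2 h3 => Or.inr (Or.inl (uniq_Remove (hF.1 _ _ _ h2)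
      (mem_Remove (hF.1 _ _ _ h3)).1 (mem_Remove (hF.1 _ _ _ h1)).2))⟩
  have h0 : (graph F).FarFromTriangleFree (ε / 9) := by
    refine farFromTriangleFree _ ?_
    push_cast
    nlinarith
  have h1 := h0.le_card_cliqueFinset
  rw [card_triangles] at h1
  have h2 : #F ≤ Fintype.card V * Fintype.card V := by
    rw [← Fintype.card_prod, ← card_univ]
    refine card_le_card_of_injOn (fun x => (x.1, x.2.2)) (fun _ _ => by simp) ?_
    rintro ⟨a, b, c⟩ h ⟨a', b', c'⟩ h' e
    obtain ⟨rfl, rfl⟩ := Prod.mk.inj e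
    rw [i1.inj₁ (mem_coe.1 h) (mem_coe.1 h')]
  have h3 : (#F : ℝ) ≤ (Fintype.card V : ℝ) ^ 2 := by rw [sq]; exact_mod_cast h2
  have hp : 0 < triangleRemovalBound (ε / 9) := triangleRemovalBound_pos (by positivity)
  rw [Nat.add_one_le_iff, Nat.floor_lt (by positivity),
    inv_lt_iff_one_lt_mul₀' (by positivity)] at hn
  simp only [Fintype.card_sum, Nat.cast_add] at h1
  generalize (Fintype.card V : ℝ) = n at *
  have hn0 : 0 < n := by
    by_contra h
    have : triangleRemovalBound (ε / 9) * 27 * n ≤ 0 :=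
      mul_nonpos_of_nonneg_of_nonpos (by positivity) (not_lt.1 h)
    linarith
  have h4 : 1 * n ^ 2 < triangleRemovalBound (ε / 9) * 27 * n * n ^ 2 :=
    mul_lt_mul_of_pos_right hn (by positivity)
  nlinarith

theorem pairs_Remove {V : Type} [Fintype V] [DecidableEq V] (M : V → Finset V) :
    #(univ.filter fun p : V × V => p.2 ∈ M p.1) = ∑ v, #(M v) := by
  rw [card_filter, Fintype.sum_prod_type]
  refine sum_congr rfl fun v _ => ?_
  rw [← card_filter]
  congr 1
  ext w
  simp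

theorem count_Remove {V : Type} [Fintype V] [DecidableEq V] (N : V → Finset V)
    (hC : Crt N) : ∃ F, Good_Remove N F ∧ ∑ v, #(N v) ≤ 4 * #F + ∑ v, #(Qs N v) := by
  classical
  obtain ⟨F, hF, hmax⟩ := exists_max_image (univ.filter (Good_Remove N)) card
    ⟨∅, by simp [Good_Remove]⟩
  have hF : Good_Remove N F := (mem_filter.1 hF).2
  refine ⟨F, hF, ?_⟩
  have hm : ∀ u v z, Tr N u v z → (∃ z', (u, v, z') ∈ F) ∨ ∃ u', (u', v, z) ∈ F := by
    intro u v z h
    by_contra hc
    push Not at hc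
    have g : Good_Remove N (insert (u, v, z) F) := by
      refine ⟨fun a b c hx => ?_, fun a b c c' hx hy => ?_, fun a a' b c hx hy => ?_⟩
      · rcases mem_insert.1 hx with e | e
        · cases e; exact h
        · exact hF.1 _ _ _ e
      · rcases mem_insert.1 hx with e | e <;> rcases mem_insert.1 hy with e' | e'
        · cases e; cases e'; rfl
        · cases e; exact absurd e' (hc.1 _)
        · cases e'; exact absurd e (hc.1 _)
        · exact hF.2.1 _ _ _ _ e e'
      · rcases mem_insert.1 hx with e | e <;> rcases mem_insert.1 hy with e' | e'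
        · cases e; cases e'; rfl
        · cases e; exact absurd e' (hc.2 _)
        · cases e'; exact absurd e (hc.2 _)
        · exact hF.2.2 _ _ _ _ e e'
    have := hmax _ (mem_filter.2 ⟨mem_univ _, g⟩)
    rw [card_insert_of_notMem (hc.1 z)] at this
    omega
  set C : Finset (V × V) := F.image (fun x => (x.1, x.2.1)) ∪ F.image (fun x => (x.2.1, x.1)) ∪
    F.image (fun x => (x.2.1, x.2.2)) ∪ F.image (fun x => (x.2.2, x.2.1)) with hCd
  have c0 : #C ≤ 4 * #F := by
    have a1 := card_image_le (s := F) (f := fun x => (x.1, x.2.1))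
    have a2 := card_image_le (s := F) (f := fun x => (x.2.1, x.1))
    have a3 := card_image_le (s := F) (f := fun x => (x.2.1, x.2.2))
    have a4 := card_image_le (s := F) (f := fun x => (x.2.2, x.2.1))
    refine (card_union_le _ _).trans ?_
    refine (Nat.add_le_add_right (card_union_le _ _) _).trans ?_
    refine (Nat.add_le_add_right (Nat.add_le_add_right (card_union_le _ _) _) _).trans ?_
    omega
  have c1 : ∀ u v, (u, v) ∈ C ↔
      ∃ w, (u, v, w) ∈ F ∨ (v, u, w) ∈ F ∨ (w, u, v) ∈ F ∨ (w, v, u) ∈ F := by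
    intro u v
    simp only [hCd, mem_union, mem_image, Prod.mk.injEq, Prod.exists]
    constructor
    · rintro (((⟨a, b, c, h, rfl, rfl⟩ | ⟨a, b, c, h, rfl, rfl⟩) | ⟨a, b, c, h, rfl, rfl⟩) |
        ⟨a, b, c, h, rfl, rfl⟩)
      · exact ⟨_, Or.inl h⟩
      · exact ⟨_, Or.inr (Or.inl h)⟩
      · exact ⟨_, Or.inr (Or.inr (Or.inl h))⟩
      · exact ⟨_, Or.inr (Or.inr (Or.inr h))⟩
    · rintro ⟨w, h | h | h | h⟩
      · exact Or.inl (Or.inl (Or.inl ⟨_, _, _, h, rfl, rfl⟩))
      · exact Or.inl (Or.inl (Or.inr ⟨_, _, _, h, rfl, rfl⟩))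
      · exact Or.inl (Or.inr ⟨_, _, _, h, rfl, rfl⟩)
      · exact Or.inr ⟨_, _, _, h, rfl, rfl⟩
  have c2 : ∀ u v, (u, v) ∈ C → (v, u) ∈ C := fun u v h => by
    rw [c1] at h ⊢
    obtain ⟨w, h⟩ := h
    exact ⟨w, by tauto⟩
  set O : Finset (V × V) := univ.filter fun p => p ∉ C ∧ ∃ z, Tr N p.1 p.2 z with hO
  have o1 : (univ.filter fun p : V × V => p.2 ∈ N p.1) ⊆ C ∪ O ∪ O.image Prod.swap := by
    rintro ⟨u, v⟩ hp
    have hp : v ∈ N u := (mem_filter.1 hp).2
    by_cases h : (u, v) ∈ C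
    · exact mem_union_left _ (mem_union_left _ h)
    rcases hC u v hp with hz | hz
    · exact mem_union_left _ (mem_union_right _ (mem_filter.2 ⟨mem_univ _, h, hz⟩))
    · exact mem_union_right _ (mem_image.2 ⟨(v, u),
        mem_filter.2 ⟨mem_univ _, fun h' => h (c2 _ _ h'), hz⟩, rfl⟩)
  have o2 : ∑ v, #(N v) ≤ #C + #O + #O := by
    rw [← pairs_Remove]
    refine (card_le_card o1).trans ((card_union_le _ _).trans ?_)
    exact Nat.add_le_add (card_union_le _ _) card_image_le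
  have o3 : ∀ p : V × V, ∃ z, p ∈ O → Tr N p.1 p.2 z := fun p => by
    by_cases h : p ∈ O
    · obtain ⟨z, hz⟩ := (mem_filter.1 h).2.2
      exact ⟨z, fun _ => hz⟩
    · exact ⟨p.1, fun h' => absurd h' h⟩
  choose g hg using o3
  have inj : ∀ p ∈ O, ∀ q ∈ O, p.1 = q.1 → g p = g q → p = q := fun p hp q hq e1 e2 => by
    refine Prod.ext e1 (uniq_Remove (hg q hq) ?_ ?_)
    · rw [← e1]; exact (mem_Remove (hg p hp)).1
    · rw [← e2]; exact (mem_Remove (hg p hp)).2
  have k1 : #(O.image fun p => (p.1, g p)) = #O :=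
    card_image_of_injOn fun p hp q hq e => inj p hp q hq (Prod.mk.inj e).1 (Prod.mk.inj e).2
  have k2 : #(O.image fun p => (g p, p.1)) = #O :=
    card_image_of_injOn fun p hp q hq e => inj p hp q hq (Prod.mk.inj e).2 (Prod.mk.inj e).1
  have k3 : Disjoint (O.image fun p => (p.1, g p)) (O.image fun p => (g p, p.1)) := by
    rw [disjoint_left]
    intro x hx hy
    obtain ⟨⟨u, v⟩, hp, rfl⟩ := mem_image.1 hx
    obtain ⟨⟨u', v'⟩, hq, e⟩ := mem_image.1 hy
    obtain ⟨e1, e2⟩ := Prod.mk.inj e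
    have t1 := hg _ hp
    have t2 := hg _ hq
    simp only at e1 e2 t1 t2
    have e3 : v' = v := by
      refine uniq_Remove t1 ?_ ?_
      · rw [← e1]; exact (mem_Remove t2).2
      · rw [← e2]; exact (mem_Remove t2).1
    rcases hm _ _ _ t1 with ⟨w, h⟩ | ⟨w, h⟩
    · exact (mem_filter.1 hp).2.1 ((c1 _ _).2 ⟨w, Or.inl h⟩)
    · refine (mem_filter.1 hq).2.1 ((c1 _ _).2 ⟨w, Or.inr (Or.inr (Or.inr ?_))⟩)
      rw [e3, e2]; exact h
  have k4 : (O.image fun p => (p.1, g p)) ∪ (O.image fun p => (g p, p.1)) ⊆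
      univ.filter fun p : V × V => p.2 ∈ Qs N p.1 := by
    intro x hx
    rcases mem_union.1 hx with hx | hx
    · obtain ⟨p, hp, rfl⟩ := mem_image.1 hx
      have t := hg p hp
      refine mem_filter.2 ⟨mem_univ _, mem_filter.2 ⟨mem_univ _, t.1.symm, ?_⟩⟩
      simp only
      rw [t.2, card_singleton]
    · obtain ⟨p, hp, rfl⟩ := mem_image.1 hx
      have t := hg p hp
      refine mem_filter.2 ⟨mem_univ _, mem_filter.2 ⟨mem_univ _, t.1, ?_⟩⟩
      simp only
      rw [inter_comm, t.2, card_singleton]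
  have k5 := card_le_card k4
  rw [card_union_of_disjoint k3, k1, k2, pairs_Remove] at k5
  omega

theorem sRemove : SRemove := by
  intro ε hε
  obtain ⟨n₀, h⟩ := small_Remove (ε / 4) (by positivity)
  refine ⟨n₀, fun V _ _ N hn _ hC => ?_⟩
  obtain ⟨F, hF, hc⟩ := count_Remove N hC
  have h1 := h V N F hn hF
  have h2 : ((∑ v, #(N v) : ℕ) : ℝ) ≤ 4 * (#F : ℝ) + (∑ v, #(Qs N v) : ℕ) := by exact_mod_cast hc
  linarith

end Pool.Agent.MP_56d70a_co.Pan

end

section

namespace Pool.Agent.MP_56d70a_co.Pan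

open Finset

theorem path_Small {V : Type} [DecidableEq V] {N : V → Finset V} {θ l : ℕ} {P : Finset V}
    (hG : Gr N) (hC : Cl N θ P) (hl : 3 ≤ l) (hP : l + 2 * θ ≤ #P) (t : ℕ) (ht : t + 1 ≤ l) :
    ∃ w : ℕ → V, (∀ i ≤ t, ∀ j ≤ t, w i = w j → i = j) ∧ (∀ i ≤ t, w i ∈ P) ∧
      (∀ i < t, Ad N (w i) (w (i + 1))) ∧ (1 ≤ t → Ad N (w t) (w 0)) := by
  induction t with
  | zero =>
    obtain ⟨x, hx⟩ := card_pos.1 (show 0 < #P by omega)
    exact ⟨fun _ => x, fun i _ j _ _ => by omega, fun _ _ => hx, fun i hi => by omega,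
      fun h => by omega⟩
  | succ t ih =>
    obtain ⟨w, h1, h2, h3, -⟩ := ih (by omega)
    have c1 := hC _ (h2 t le_rfl)
    have c2 := hC _ (h2 0 (Nat.zero_le t))
    have c3 : #((range (t + 1)).image w) ≤ t + 1 := card_image_le.trans (card_range _).le
    have c4 := card_union_le (N (w t) ∩ P) (N (w 0) ∩ P)
    have c5 := card_union_le (N (w t) ∩ P ∪ N (w 0) ∩ P) ((range (t + 1)).image w)
    obtain ⟨x, hx, hn⟩ := exists_mem_notMem_of_card_lt_card
      (show #(N (w t) ∩ P ∪ N (w 0) ∩ P ∪ (range (t + 1)).image w) < #P by omega)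
    simp only [mem_union, mem_inter, mem_image, mem_range, not_or, not_exists, not_and] at hn
    obtain ⟨⟨n1, n2⟩, n3⟩ := hn
    have e : ∀ i ≤ t, Function.update w (t + 1) x i = w i := fun i hi =>
      Function.update_of_ne (by omega) _ _
    have e' : Function.update w (t + 1) x (t + 1) = x := Function.update_self ..
    refine ⟨Function.update w (t + 1) x, fun i hi j hj h => ?_, fun i hi => ?_, fun i hi => ?_,
      fun _ => ?_⟩
    · rcases Nat.of_le_succ hi with a | rfl <;> rcases Nat.of_le_succ hj with b | rfl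
      · exact h1 i a j b (by rwa [e i a, e j b] at h)
      · exact absurd (by rwa [e i a, e'] at h) (n3 i (by omega))
      · exact absurd (by rw [e j b, e'] at h; exact h.symm) (n3 j (by omega))
      · rfl
    · rcases Nat.of_le_succ hi with a | rfl
      · rw [e i a]; exact h2 i a
      · rw [e']; exact hx
    · rcases Nat.lt_succ_iff_lt_or_eq.1 hi with a | rfl
      · rw [e i a.le, e (i + 1) a]; exact h3 i a
      · rw [e i le_rfl, e']
        exact ⟨n3 i (by omega), fun h => n1 h hx⟩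
    · rw [e', e 0 (Nat.zero_le t)]
      exact ⟨fun h => n3 0 (by omega) h.symm, fun h => n2 (hG.1 _ _ h) hx⟩

theorem sSmall : SSmall := by
  intro V _ N θ l P hG hC hl hP
  obtain ⟨w, h1, -, h3, h4⟩ := path_Small hG hC hl hP (l - 1) (by omega)
  exact ⟨w, fun i hi j hj => h1 i (by omega) j (by omega), fun i hi => h3 i (by omega),
    h4 (by omega)⟩

theorem sTrans : STrans := by
  intro V _ _ G
  refine ⟨fun h3 hH => ?_, fun m hm hc => ?_⟩
  · obtain ⟨a, p, hp⟩ := hH (by omega)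
    have hl := hp.length_eq
    refine ⟨p.getVert, fun i hi j hj e => hp.isCycle.getVert_injOn' (by simp; omega)
      (by simp; omega) e, fun i hi => p.adj_getVert_succ (by omega), ?_⟩
    have := p.adj_getVert_succ (i := Fintype.card V - 1) (by omega)
    rw [show Fintype.card V - 1 + 1 = p.length by omega, p.getVert_length] at this
    rwa [p.getVert_zero]
  · obtain ⟨w, h1, h2, h3⟩ := hc
    have key : ∀ u v : Fin m, (u - v).val = 1 → G.Adj (w v) (w u) := by
      rintro ⟨x, hx⟩ ⟨y, hy⟩ h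
      rcases le_or_gt y x with c | c
      · rw [Fin.sub_val_of_le (show (⟨y, hy⟩ : Fin m) ≤ ⟨x, hx⟩ from c)] at h
        obtain rfl : x = y + 1 := by simp only at h; omega
        exact h2 y hx
      · rw [Fin.coe_sub_iff_lt.mpr (show (⟨x, hx⟩ : Fin m) < ⟨y, hy⟩ from c)] at h
        simp only at h
        obtain rfl : x = 0 := by omega
        obtain rfl : y = m - 1 := by omega
        exact h3
    refine (SimpleGraph.cycleGraph_isContained_iff (by omega)).1
      ⟨⟨⟨fun i => w i, fun {u v} h => ?_⟩, fun u v h => Fin.ext (h1 _ u.2 _ v.2 h)⟩⟩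
    rcases SimpleGraph.cycleGraph_adj'.1 h with c | c
    · exact (key u v c).symm
    · exact key v u c

end Pool.Agent.MP_56d70a_co.Pan

end

section

/-! The weighted count and the two-clique structure. -/

namespace Pool.Agent.MP_56d70a_co.Pan

open Finset

variable {V : Type} [Fintype V] [DecidableEq V]

/-- the number of vertices outside `N x` and `Qs N y` -/
def dl (N : V → Finset V) (x y : V) : ℕ := #(univ \ (N x ∪ Qs N y))

theorem card_out (s t : Finset V) : #(univ \ (s ∪ t)) + #s + #t = Fintype.card V + #(s ∩ t) := by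
  have h1 := card_union_add_card_inter s t
  have h2 := card_sdiff_add_card_eq_card (subset_univ (s ∪ t))
  rw [card_univ] at h2
  omega

theorem sum_mu {N : V → Finset V} (hG : Gr N) (y : V) :
    ∑ x ∈ N y, #(N x ∩ Qs N y) = #(Qs N y) := by
  have h := sum_card_bipartiteAbove_eq_sum_card_bipartiteBelow (s := N y) (t := Qs N y)
    fun x z => z ∈ N x
  calc _ = _ := sum_congr rfl fun x _ => by rw [bipartiteAbove, filter_mem_eq_inter, inter_comm]
    _ = _ := h
    _ = ∑ _z ∈ Qs N y, 1 := sum_congr rfl fun z hz => by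
        rw [← (mem_filter.1 hz).2.2, bipartiteBelow, ← filter_mem_eq_inter]
        exact congrArg _ (filter_congr fun x _ => ⟨hG.1 _ _, hG.1 _ _⟩)
    _ = _ := (card_eq_sum_ones _).symm

theorem weight {N : V → Finset V} (hG : Gr N) (n K : ℝ) (hn : n = Fintype.card V) (hK : 0 < K)
    (hKn : K ≤ n) :
    ((∑ v, #(N v) : ℕ) : ℝ) + (∑ y, ∑ x ∈ N y, dl N x y : ℕ) / (2 * n) + (∑ v, #(Qs N v) : ℕ) ≤
      n ^ 2 + n ^ 2 / K + n * K := by
  have hle : ∀ s : Finset V, (#s : ℝ) ≤ n := fun s => by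
    rw [hn]
    exact_mod_cast card_le_univ s
  let g : V → ℝ := fun v => #(N v) + K
  have g0 : ∀ v, 0 < g v := fun v => by positivity
  have h1 : ∀ y, ∑ x ∈ N y, (g x / g y + dl N x y / g y) + #(Qs N y) ≤ n + n / K + K := by
    intro y
    have e : ∑ x ∈ N y, (g x + dl N x y) = #(N y) * (n - #(Qs N y) + K) + #(Qs N y) := by
      have : ∀ x ∈ N y, g x + dl N x y = (n - #(Qs N y) + K) + (#(N x ∩ Qs N y) : ℕ) := by
        intro x _
        have : ((dl N x y + #(N x) + #(Qs N y) : ℕ) : ℝ) =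
          (Fintype.card V + #(N x ∩ Qs N y) : ℕ) := congrArg _ (card_out _ _)
        push_cast at this
        simp only [g]
        linarith
      rw [sum_congr rfl this, sum_add_distrib, sum_const, nsmul_eq_mul, ← Nat.cast_sum, sum_mu hG]
    simp_rw [← add_div]
    rw [← sum_div, e, ← le_sub_iff_add_le, div_le_iff₀ (g0 y)]
    have a1 := hle (Qs N y)
    have a2 : (0 : ℝ) ≤ #(N y) := Nat.cast_nonneg _
    have a3 : n / K * K = n := div_mul_cancel₀ _ hK.ne'
    have a4 : 0 ≤ n / K := div_nonneg (hK.le.trans hKn) hK.le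
    simp only [g]
    nlinarith [mul_nonneg a2 a4, mul_nonneg hK.le (sub_nonneg.2 a1), mul_pos hK hK]
  have h2 : ∑ y, ∑ x ∈ N y, g x / g y = ∑ y, ∑ x ∈ N y, g y / g x :=
    sum_comm' fun x y => by simpa using ⟨hG.1 _ _, hG.1 _ _⟩
  have h3 : ∑ y, ∑ x ∈ N y, (2 : ℝ) ≤ ∑ y, ∑ x ∈ N y, (g x / g y + g y / g x) :=
    sum_le_sum fun y _ => sum_le_sum fun x _ => by
      rw [div_add_div _ _ (g0 y).ne' (g0 x).ne', le_div_iff₀ (mul_pos (g0 y) (g0 x))]
      nlinarith [sq_nonneg (g x - g y)]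
  have h4 : ∑ y, ∑ x ∈ N y, (dl N x y : ℝ) / (2 * n) ≤ ∑ y, ∑ x ∈ N y, dl N x y / g y :=
    sum_le_sum fun y _ => sum_le_sum fun x _ =>
      div_le_div_of_nonneg_left (Nat.cast_nonneg _) (g0 y) (by
        have := hle (N y)
        simp only [g]
        linarith)
  have h5 := sum_le_sum fun y (_ : y ∈ (univ : Finset V)) => h1 y
  simp only [sum_add_distrib, sum_const, nsmul_eq_mul, card_univ, ← hn, ← sum_mul, ← sum_div]
    at h3 h4 h5
  simp only [← sum_div] at h2
  push_cast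
  have : n * (n / K) = n ^ 2 / K := by ring
  nlinarith

/-- the neighbours of `y` with a large defect -/
def Bd (N : V → Finset V) (r : ℕ) (y : V) : Finset V := (N y).filter fun x => r < dl N x y

theorem few_bad (N : V → Finset V) (r : ℕ) (hr : 0 < r)
    (h : ∑ y, ∑ x ∈ N y, dl N x y ≤ r * r * r) :
    ∃ W : Finset V, #W ≤ r ∧ ∀ y ∉ W, #(Bd N r y) ≤ r := by
  refine ⟨univ.filter fun y => r < #(Bd N r y), ?_, fun y hy => by simpa using hy⟩
  refine Nat.le_of_mul_le_mul_right (c := r * r) ?_ (by positivity)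
  refine le_trans (card_nsmul_le_sum _ (fun y => ∑ x ∈ N y, dl N x y) _ fun y hy => ?_)
    ((sum_le_sum_of_subset (subset_univ _)).trans (h.trans (mul_assoc _ _ _).le))
  exact (Nat.mul_le_mul_right r (mem_filter.1 hy).2.le).trans ((card_nsmul_le_sum _
    (fun x => dl N x y) _ fun x hx => (mem_filter.1 hx).2.le).trans
    (sum_le_sum_of_subset (filter_subset _ _)))

omit [Fintype V] in
theorem clique_small {N : V → Finset V} (hG : Gr N) (hC : Crt N) (U : Finset V) (a b : ℕ)
    (h1 : ∀ u ∈ U, #(U \ N u) ≤ a)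
    (h2 : ∀ u ∈ U, ∃ T : Finset V, #T ≤ b ∧ ∀ v ∈ U, ∀ z, Tr N u v z → z ∈ T) :
    #U ≤ a + 2 * b := by
  classical
  let R : V → V → Prop := fun u v => ∃ z, Tr N u v z
  have o1 : ∀ u ∈ U, #(U.bipartiteAbove R u) ≤ b := fun u hu => by
    obtain ⟨T, t1, t2⟩ := h2 u hu
    refine le_trans (card_le_card_of_forall_subsingleton (fun v z => Tr N u v z) (fun v hv => ?_)
      fun z _ v hv v' hv' => ?_) t1
    · obtain ⟨hv, z, hz⟩ := mem_filter.1 hv
      exact ⟨z, t2 v hv z hz, hz⟩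
    · exact singleton_injective (hv.2.2.symm.trans hv'.2.2)
  have o2 : ∀ u ∈ U, #U ≤ a + (#(U.bipartiteAbove R u) + #(U.bipartiteBelow R u)) := by
    intro u hu
    refine le_trans (card_le_card (t := U \ N u ∪ (U.bipartiteAbove R u ∪ U.bipartiteBelow R u))
      fun v hv => ?_) ((card_union_le _ _).trans (add_le_add (h1 u hu) (card_union_le _ _)))
    by_cases c : v ∈ N u
    · rcases hC u v c with d | d
      · exact mem_union_right _ (mem_union_left _ (mem_filter.2 ⟨hv, d⟩))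
      · exact mem_union_right _ (mem_union_right _ (mem_filter.2 ⟨hv, d⟩))
    · exact mem_union_left _ (mem_sdiff.2 ⟨hv, c⟩)
  have o3 := sum_le_sum o2
  have o4 := sum_le_card_nsmul _ _ _ o1
  rw [sum_add_distrib, sum_add_distrib, ← sum_card_bipartiteAbove_eq_sum_card_bipartiteBelow,
    sum_const, sum_const] at o3
  simp only [smul_eq_mul] at o3 o4
  rcases Nat.eq_zero_or_pos #U with c | c
  · omega
  · exact Nat.le_of_mul_le_mul_left (by nlinarith) c

theorem two_cliques {N : V → Finset V} (hG : Gr N) (hC : Crt N) (π : V → V)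
    (hi : Function.Injective π) (hπ : ∀ v, Fintype.card V ≤ #(N v) + #(N (π v)) + 3) (r : ℕ)
    (W : Finset V) (hW : #W ≤ r) (hB : ∀ y ∉ W, #(Bd N r y) ≤ r)
    (h1 : 64 * r + 35 < Fintype.card V) (h2 : 4 * Fintype.card V ≤ r * r) :
    ∃ A B, Cl N (3 * r + 2) A ∧ Cl N (3 * r + 2) B ∧ #(univ \ (A ∪ B)) ≤ 3 * r + 2 ∧
      Fintype.card V ≤ 2 * #A + 2 * r + 5 := by
  classical
  have ex : ∀ s : Finset V, #s < Fintype.card V → ∃ v, v ∉ s := fun s h => by
    obtain ⟨v, -, hv⟩ := exists_mem_notMem_of_card_lt_card (s := s) (t := univ) h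
    exact ⟨v, hv⟩
  have u3 : ∀ s a b c : Finset V, (∀ v ∈ s, v ∈ a ∨ v ∈ b ∨ v ∈ c) → #s ≤ #a + #b + #c :=
    fun s a b c h => (card_le_card (t := a ∪ b ∪ c) fun v hv => by
      simpa using h v hv).trans ((card_union_le _ _).trans (by gcongr; exact card_union_le _ _))
  obtain ⟨W', hW', hw'⟩ : ∃ W' : Finset V, #W' ≤ r ∧ ∀ v ∉ W', π v ∉ W :=
    ⟨univ.filter fun v => π v ∈ W, (card_le_card_of_injOn π (fun v hv => by simpa using hv)
      hi.injOn).trans hW, fun v hv => by simpa using hv⟩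
  obtain ⟨y, hy, hmax⟩ := exists_max_image (univ \ W) (fun v => #(N v)) (by
    obtain ⟨v, hv⟩ := ex W (by omega)
    exact ⟨v, by simpa using hv⟩)
  replace hmax : ∀ v ∉ W, #(N v) ≤ #(N y) := fun v hv => hmax v (by simpa using hv)
  have hb := hB y (mem_sdiff.1 hy).2
  have hs : Fintype.card V ≤ 2 * #(N y) + 3 := by
    obtain ⟨v, hv⟩ := ex (W ∪ W') (by have := card_union_le W W'; omega)
    have := hπ v
    have := hmax v fun h => hv (mem_union_left _ h)
    have := hmax _ (hw' v fun h => hv (mem_union_right _ h))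
    omega
  have hz : ∀ z ∈ Qs N y, #(N y ∩ N z) = 1 := fun z h => (mem_filter.1 h).2.2
  have h4 : ∀ z ∈ Qs N y, z ∉ W' → #(univ \ (N y ∪ N z)) ≤ 4 := fun z h h' => by
    have := card_out (N y) (N z)
    have := hz z h
    have := hπ z
    have := hmax _ (hw' z h')
    omega
  have hd : ∀ x ∈ N y, x ∉ Bd N r y → #(univ \ (N x ∪ Qs N y)) ≤ r := fun x h h' =>
    not_lt.1 fun c => h' (mem_filter.2 ⟨h, c⟩)
  by_cases cs : ∃ x ∈ N y, x ∉ Bd N r y ∧ x ∉ W ∧ x ∈ Qs N y
  · obtain ⟨x, x1, x2, -, x3⟩ := cs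
    have a1 : #(N y \ Qs N y) ≤ r + 1 := by
      have := u3 (N y \ Qs N y) (N y ∩ N x) (univ \ (N x ∪ Qs N y)) ∅ fun v hv => by
        simp only [mem_sdiff, mem_inter, mem_union, mem_univ] at hv ⊢
        tauto
      have := hz x x3
      have := hd x x1 x2
      simp only [card_empty] at *
      omega
    have a2 := card_sdiff_add_card_inter (N y) (Qs N y)
    have a3 := le_card_sdiff W' (N y ∩ Qs N y)
    let C := (univ \ N y).filter fun b => r < #(((N y ∩ Qs N y) \ W') \ N b)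
    have hc : #C ≤ r := by
      refine Nat.le_of_mul_le_mul_right (c := r) (le_trans ?_ h2) (by nlinarith)
      refine (card_mul_le_card_mul (s := C) (t := (N y ∩ Qs N y) \ W') (fun b a => a ∉ N b)
        (n := 4) (fun b hb => ?_) fun a ha => ?_).trans ?_
      · rw [bipartiteAbove, ← sdiff_eq_filter]
        exact (mem_filter.1 hb).2.le
      · refine le_trans (card_le_card fun b hb => ?_)
          (h4 a (mem_inter.1 (mem_sdiff.1 ha).1).2 (mem_sdiff.1 ha).2)
        have := mem_filter.1 hb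
        simp only [mem_sdiff, mem_union, mem_univ, true_and, not_or]
        exact ⟨(mem_sdiff.1 (mem_filter.1 this.1).1).2, fun c => this.2 (hG.1 _ _ c)⟩
      · have := card_le_univ ((N y ∩ Qs N y) \ W')
        omega
    refine ⟨N y ∩ Qs N y, univ \ (N y ∪ W ∪ C), fun v hv => ?_, fun b hb => ?_, ?_, by omega⟩
    · have := hz v (mem_inter.1 hv).2
      have : #(N v ∩ (N y ∩ Qs N y)) ≤ #(N y ∩ N v) := card_le_card fun t ht => by
        simp only [mem_inter] at ht ⊢
        tauto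
      omega
    · simp only [mem_sdiff, mem_union, mem_univ, true_and, not_or] at hb
      have b1 : ¬ r < #(((N y ∩ Qs N y) \ W') \ N b) := fun c =>
        hb.2 (mem_filter.2 ⟨by simpa using hb.1.1, c⟩)
      have b2 := card_sdiff_add_card_inter ((N y ∩ Qs N y) \ W') (N b)
      have b3 := hmax b hb.1.2
      have b4 : #(((N y ∩ Qs N y) \ W') ∩ N b) ≤ #(N b ∩ N y) := card_le_card fun t ht => by
        simp only [mem_inter, mem_sdiff] at ht ⊢
        tauto
      have b5 : #(N b ∩ (univ \ (N y ∪ W ∪ C))) ≤ #(N b \ N y) := card_le_card fun t ht => by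
        simp only [mem_inter, mem_sdiff, mem_union] at ht ⊢
        tauto
      have b6 := card_sdiff_add_card_inter (N b) (N y)
      omega
    · have := u3 (univ \ (N y ∩ Qs N y ∪ univ \ (N y ∪ W ∪ C))) (N y \ Qs N y) W C fun v hv => by
        simp only [mem_sdiff, mem_inter, mem_union, mem_univ] at hv ⊢
        tauto
      omega
  · exfalso
    obtain ⟨S, hS⟩ : ∃ S : Finset V, ∀ v, v ∈ S ↔ v ∈ N y ∧ v ∉ Bd N r y ∧ v ∉ W :=
      ⟨N y \ (Bd N r y ∪ W), fun v => by simp⟩
    have a0 := u3 (N y) S (Bd N r y) W fun v hv => by rw [hS]; tauto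
    have a1 := u3 (N y ∩ Qs N y) ∅ (Bd N r y) W fun v hv => by
      by_contra c
      simp only [not_or] at c
      exact cs ⟨v, (mem_inter.1 hv).1, c.2.1, c.2.2, (mem_inter.1 hv).2⟩
    rw [card_empty] at a1
    have a2 : ∀ u ∈ S, #(N y \ N u) ≤ 3 * r := fun u hu => by
      have := u3 (N y \ N u) (N y ∩ Qs N y) (univ \ (N u ∪ Qs N y)) ∅ fun v hv => by
        simp only [mem_sdiff, mem_inter, mem_union, mem_univ] at hv ⊢
        tauto
      have := hd u ((hS u).1 hu).1 ((hS u).1 hu).2.1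
      simp only [card_empty] at *
      omega
    have a3 : #(univ \ (N y ∪ Qs N y)) ≤ 3 * r := by
      obtain ⟨x, hx⟩ := card_pos.1 (show 0 < #S by omega)
      have := card_out (N y) (Qs N y)
      have := card_out (N x) (Qs N y)
      have := hd x ((hS x).1 hx).1 ((hS x).1 hx).2.1
      have := hmax x ((hS x).1 hx).2.2
      omega
    let T := Bd N r y ∪ W ∪ W' ∪ univ \ (N y ∪ Qs N y)
    have a4 : #T ≤ 6 * r := by
      have := u3 T (Bd N r y ∪ W) W' (univ \ (N y ∪ Qs N y)) fun v hv => by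
        simp only [T, mem_union] at hv ⊢
        tauto
      have := card_union_le (Bd N r y) W
      omega
    have a5 : ∀ u ∈ S, ∀ v z, Tr N u v z → z ∉ T → z ∈ Qs N y ∧ z ∉ N y ∧ z ∉ W' := by
      intro u hu v z ht hT
      simp only [T, mem_union, mem_sdiff, mem_univ, true_and, not_or, not_and, not_not] at hT
      have : z ∉ N y := fun c => by
        have := u3 (N y) (N y \ N u) (N y \ N z) (N u ∩ N z) fun v hv => by
          simp only [mem_sdiff, mem_inter]
          tauto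
        have := a2 u hu
        have := a2 z ((hS z).2 ⟨c, hT.1.1⟩)
        have : #(N u ∩ N z) = 1 := by rw [ht.2, card_singleton]
        omega
      exact ⟨hT.2 this, this, hT.1.2⟩
    have a6 : ∀ U ⊆ S, ∀ u ∈ U, #(U \ N u) ≤ 3 * r := fun U hU u hu =>
      (card_le_card (sdiff_subset_sdiff (fun v hv => ((hS v).1 (hU hv)).1)
        subset_rfl)).trans (a2 u (hU hu))
    have mem : ∀ u v z, Tr N u v z → ∀ t, t ∈ N u ∧ t ∈ N z ↔ t = v := fun u v z h t => by
      rw [← mem_inter, h.2, mem_singleton]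
    let p : V → Prop := fun u => ∃ z, (z ∈ Qs N y ∧ z ∉ N y ∧ z ∉ W') ∧ u ∈ N z
    have c1 := clique_small hG hC (S.filter p) _ (6 * r + 4) (a6 _ (filter_subset _ _))
        fun u hu => by
      obtain ⟨hu, t, ht, hut⟩ := mem_filter.1 hu
      refine ⟨T ∪ univ \ (N y ∪ N t), (card_union_le _ _).trans
        (add_le_add a4 (h4 t ht.1 ht.2.2)), fun v hv z hz => ?_⟩
      by_contra c
      have := a5 u hu v z hz fun d => c (mem_union_left _ d)
      refine c (mem_union_right _ ?_)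
      simp only [mem_union, mem_sdiff, mem_univ, true_and, not_or]
      refine ⟨this.2.1, fun d => ht.2.1 ?_⟩
      rw [(mem u v z hz t).1 ⟨hG.1 _ _ hut, hG.1 _ _ d⟩]
      exact ((hS v).1 (mem_filter.1 hv).1).1
    have c2 := clique_small hG hC (S.filter fun u => ¬ p u) _ (6 * r) (a6 _ (filter_subset _ _))
      fun u hu => ⟨T, a4, fun v hv z hz => by_contra fun c => (mem_filter.1 hv).2
        ⟨z, a5 u (mem_filter.1 hu).1 v z hz c, ((mem u v z hz v).2 rfl).2⟩⟩
    have := card_filter_add_card_filter_not (s := S) p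
    omega

end Pool.Agent.MP_56d70a_co.Pan

end

section

/-! Assembly. -/

namespace Pool.Agent.MP_56d70a_co.Pan

open Finset

theorem all_lengths : ∃ n₀ : ℕ, 3 ≤ n₀ ∧ ∀ (V : Type) [Fintype V] [DecidableEq V]
    (N : V → Finset V), n₀ ≤ Fintype.card V → Gr N → Crt N → Has (Ad N) (Fintype.card V) →
    ∀ l, 3 ≤ l → l ≤ Fintype.card V → Has (Ad N) l := by
  obtain ⟨n₁, hn₁⟩ := sRemove (1 / 10 ^ 8) (by positivity)
  refine ⟨max n₁ (10 ^ 17), le_max_of_le_right (by norm_num), fun V _ _ N hn hG hC hH l₀ a b => ?_⟩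
  by_contra hl
  have hn' : 10 ^ 17 ≤ Fintype.card V := le_of_max_le_right hn
  obtain ⟨π, hi, hπ⟩ := sBondy V N l₀ hG hH a (lt_of_le_of_ne b fun e => hl (e ▸ hH)) hl
  have h1 := hn₁ V N (le_of_max_le_left hn) hG hC
  obtain ⟨n, hn0⟩ : ∃ n : ℝ, n = Fintype.card V := ⟨_, rfl⟩
  have hnR : (10 : ℝ) ^ 17 ≤ n := by rw [hn0]; exact_mod_cast hn'
  have h2 := weight hG n (10 ^ 8) hn0 (by positivity) (le_trans (by norm_num) hnR)
  have h3 : n * n ≤ 2 * (∑ v, #(N v) : ℕ) + 3 * n := by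
    have := sum_le_sum fun v (_ : v ∈ (univ : Finset V)) => hπ v
    rw [sum_add_distrib, sum_add_distrib, hi.bijective_of_finite.sum_comp fun v => #(N v),
      sum_const, sum_const, card_univ, smul_eq_mul, smul_eq_mul, ← two_mul, mul_comm _ 3] at this
    rw [hn0]
    exact_mod_cast this
  obtain ⟨r, r1, r2⟩ : ∃ r : ℕ, 200 * r ≤ Fintype.card V ∧ Fintype.card V ≤ 201 * r :=
    ⟨Fintype.card V / 200, by omega, by omega⟩
  have h4 : ∑ y, ∑ x ∈ N y, dl N x y ≤ r * r * r := by
    have r3 : n ≤ 201 * r := by rw [hn0]; exact_mod_cast r2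
    have n0 : 0 < n := lt_of_lt_of_le (by positivity) hnR
    have r4 : n ^ 3 ≤ (201 * r) ^ 3 := pow_le_pow_left₀ n0.le r3 3
    have h5 : ((∑ y, ∑ x ∈ N y, dl N x y : ℕ) : ℝ) / (2 * n) ≤ 3 / 10 ^ 8 * n ^ 2 := by
      rw [← hn0] at h1
      nlinarith [mul_le_mul_of_nonneg_left hnR n0.le]
    rw [div_le_iff₀ (by positivity)] at h5
    have : ((∑ y, ∑ x ∈ N y, dl N x y : ℕ) : ℝ) ≤ r * r * r := by nlinarith [pow_pos n0 3]
    exact_mod_cast this
  obtain ⟨W, w1, w2⟩ := few_bad N r (by omega) h4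
  obtain ⟨A, B, c1, c2, c3, c4⟩ := two_cliques hG hC π hi hπ r W w1 w2 (by omega)
    (le_trans (show _ ≤ 804 * r by omega) (Nat.mul_le_mul_right r (by omega)))
  by_cases c : l₀ + 2 * (3 * r + 2) ≤ #A
  · exact hl (sSmall V N _ l₀ A hG c1 a c)
  · exact hl (Nat.decreasingInduction' (fun k _ hk h => sShort V N _ k A B hG c1 c2 c3
      (by omega) h) b hH)

theorem triple {V : Type} [Fintype V] [DecidableEq V] (G : SimpleGraph V) (N : V → Finset V)
    (hN : ∀ v w, w ∈ N v ↔ v ≠ w ∧ ¬ G.Adj v w)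
    (h2 : ∀ D : Finset V, D.card ≤ 2 → ¬ ∀ w : V, w ∈ D ∨ ∃ x ∈ D, G.Adj w x) {u v : V}
    {D : Finset V} (hD : #D ≤ 2) (hu : u ∈ D) (hv : ¬ (v ∈ D ∨ ∃ x ∈ D, G.Adj v x))
    (hd : ∀ w, w ≠ v → w ∈ D ∨ ∃ x ∈ D, G.Adj w x) : ∃ z, Tr N u v z := by
  by_cases c : ∃ z ∈ D, z ≠ u
  · obtain ⟨z, hz, c⟩ := c
    have e : ({u, z} : Finset V) = D := eq_of_subset_of_card_le
      (insert_subset hu (singleton_subset_iff.2 hz)) (by rw [card_pair c.symm]; exact hD)
    refine ⟨z, c.symm, eq_singleton_iff_unique_mem.2 ⟨?_, fun w hw => by_contra fun d => ?_⟩⟩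
    · rw [mem_inter, hN, hN]
      exact ⟨⟨fun e => hv (.inl (e ▸ hu)), fun a => hv (.inr ⟨u, hu, a.symm⟩)⟩,
        fun e => hv (.inl (e ▸ hz)), fun a => hv (.inr ⟨z, hz, a.symm⟩)⟩
    · rw [mem_inter, hN, hN] at hw
      have := hd w d
      simp only [← e, mem_insert, mem_singleton, exists_eq_or_imp, exists_eq_left] at this
      rcases this with (a | a) | a | a
      exacts [hw.1.1 a.symm, hw.2.1 a.symm, hw.1.2 a.symm, hw.2.2 a.symm]
  · refine absurd (fun w => ?_) (h2 {u, v} card_le_two)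
    have c : ∀ z ∈ D, z = u := fun z hz => by_contra fun d => c ⟨z, hz, d⟩
    by_cases d : w = v
    · exact .inl (by simp [d])
    · rcases hd w d with a | ⟨x, hx, a⟩
      · exact .inl (by simp [c w a])
      · exact .inr ⟨x, by simp [c x hx], a⟩

end Pool.Agent.MP_56d70a_co.Pan

end

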